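import Pool.Agent.Helper74.NQ.Defs

/-!
# NQ: product states
-/

set_option autoImplicit false
set_option linter.unusedSectionVars false

namespace Pool.Agent.Helper74.NQ

open Function

variable {W : Type} [Fintype W] [DecidableEq W]

/-- the depolarising channel on one qubit -/
noncomputable def depol1 (lam : ℝ) (r : Matrix Bool Bool ℂ) : Matrix Bool Bool ℂ := fun a b =>
  (1 - lam) * r a b + lam * (if a = b then (r false false + r true true) / 2 else 0)

theorem tens_apply (g : W → Matrix Bool Bool ℂ) (x y : W → Bool) :
    tens g x y = ∏ j, g j (x j) (y j) := rfl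

theorem tens_split (g : W → Matrix Bool Bool ℂ) (j : W) (x y : W → Bool) :
    tens g x y = g j (x j) (y j) * ∏ i ∈ Finset.univ.erase j, g i (x i) (y i) := by
  exact (Finset.mul_prod_erase _ (fun i => g i (x i) (y i)) (Finset.mem_univ j)).symm

theorem tens_update_split (g : W → Matrix Bool Bool ℂ) (j : W) (r : Matrix Bool Bool ℂ)
    (x y : W → Bool) :
    tens (update g j r) x y = r (x j) (y j) * ∏ i ∈ Finset.univ.erase j, g i (x i) (y i) := by
  rw [tens_split _ j, update_self]
  congr 1
  refine Finset.prod_congr rfl ?_
  intro i hi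
  rw [update_of_ne (Finset.ne_of_mem_erase hi)]

theorem tens_at_update (g : W → Matrix Bool Bool ℂ) (j : W) (a b : Bool) (x y : W → Bool) :
    tens g (update x j a) (update y j b) = g j a b * ∏ i ∈ Finset.univ.erase j, g i (x i) (y i) := by
  rw [tens_split _ j, update_self, update_self]
  congr 1
  refine Finset.prod_congr rfl ?_
  intro i hi
  rw [update_of_ne (Finset.ne_of_mem_erase hi), update_of_ne (Finset.ne_of_mem_erase hi)]

theorem depol_tens (lam : ℝ) (j : W) (g : W → Matrix Bool Bool ℂ) :
    depol lam j (tens g) = tens (update g j (depol1 lam (g j))) := by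
  funext x y
  rw [tens_update_split]
  unfold depol depol1
  rw [tens_at_update, tens_at_update, tens_split g j]
  by_cases h : x j = y j
  · rw [if_pos h, if_pos h]
    ring
  · rw [if_neg h, if_neg h]
    ring

theorem depolAll_tens (lam : W → ℝ) (g : W → Matrix Bool Bool ℂ) :
    depolAll lam (tens g) = tens (fun j => depol1 (lam j) (g j)) := by
  have key : ∀ L : List W, L.Nodup → L.foldr (fun j σ => depol (lam j) j σ) (tens g) =
      tens (fun j => if j ∈ L then depol1 (lam j) (g j) else g j) := by
    intro L
    induction L with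
    | nil => intro _; simp
    | cons a L ih =>
      intro hL
      rw [List.nodup_cons] at hL
      rw [List.foldr_cons, ih hL.2, depol_tens]
      congr 1
      funext j
      by_cases hj : j = a
      · subst hj
        rw [update_self, if_neg hL.1, if_pos (List.mem_cons_self ..)]
      · rw [update_of_ne hj]
        by_cases hjL : j ∈ L
        · rw [if_pos hjL, if_pos (List.mem_cons_of_mem _ hjL)]
        · rw [if_neg hjL, if_neg (by
            rw [List.mem_cons]
            rintro (h | h)
            · exact hj h
            · exact hjL h)]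
  unfold depolAll
  rw [key _ (Finset.nodup_toList _)]
  congr 1
  funext j
  rw [if_pos (by simp)]

theorem tens_mul (g h : W → Matrix Bool Bool ℂ) :
    tens g * tens h = tens (fun j => g j * h j) := by
  funext x y
  rw [Matrix.mul_apply, tens_apply]
  simp_rw [tens_apply, ← Finset.prod_mul_distrib, Matrix.mul_apply]
  rw [Finset.prod_univ_sum, Fintype.piFinset_univ]

theorem tens_conj (g : W → Matrix Bool Bool ℂ) :
    (tens g).conjTranspose = tens (fun j => (g j).conjTranspose) := by
  funext x y
  rw [Matrix.conjTranspose_apply, tens_apply, tens_apply, star_prod]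
  rfl

theorem gates_tens (A : List Bool → Bool) (g r : W → Matrix Bool Bool ℂ) :
    (Step.gates g).app A (tens r) = tens (fun j => g j * r j * (g j).conjTranspose) := by
  change tens g * tens r * (tens g).conjTranspose = _
  rw [tens_conj, tens_mul, tens_mul]

/-- the state `|0⟩⟨0|` of one qubit -/
def e0 : Matrix Bool Bool ℂ := fun a b => if a = false ∧ b = false then 1 else 0

theorem zeroState_tens : (zeroState : DM W) = tens (fun _ => e0) := by
  funext x y
  rw [tens_apply]
  unfold zeroState e0
  rw [Fintype.prod_ite_zero]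
  simp only [Finset.prod_const_one, forall_and, funext_iff]

/-- diagonal states -/
noncomputable def dS (m : ℂ) : Matrix Bool Bool ℂ := fun a b =>
  if a = b then (if a = true then (1 - m) / 2 else (1 + m) / 2) else 0

/-- mixtures of `|+⟩` and `|-⟩` -/
noncomputable def eS (m : ℂ) : Matrix Bool Bool ℂ := fun a b => if a = b then 1 / 2 else m / 2

theorem depol1_dS (lam : ℝ) (m : ℂ) : depol1 lam (dS m) = dS ((1 - lam) * m) := by
  funext a b
  unfold depol1 dS
  cases a <;> cases b <;> simp <;> ring

theorem depol1_eS (lam : ℝ) (m : ℂ) : depol1 lam (eS m) = eS ((1 - lam) * m) := by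
  funext a b
  unfold depol1 eS
  cases a <;> cases b <;> simp <;> ring

theorem e0_eq : e0 = dS 1 := by
  funext a b
  unfold e0 dS
  cases a <;> cases b <;> simp

theorem gI_dS (m : ℂ) : gI * dS m * gI.conjTranspose = dS m := by
  funext a b
  simp only [Matrix.mul_apply, Matrix.conjTranspose_apply, Fintype.sum_bool]
  unfold gI dS
  cases a <;> cases b <;> simp

theorem gX_dS (m : ℂ) : gX * dS m * gX.conjTranspose = dS (-m) := by
  funext a b
  simp only [Matrix.mul_apply, Matrix.conjTranspose_apply, Fintype.sum_bool]
  unfold gX dS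
  cases a <;> cases b <;> simp [sub_eq_add_neg]

theorem sqrt2_mul : ((Real.sqrt 2 : ℝ) : ℂ) * ((Real.sqrt 2 : ℝ) : ℂ) = 2 := by
  rw [← Complex.ofReal_mul, Real.mul_self_sqrt (by norm_num)]
  norm_num

theorem sqrt2_ne : ((Real.sqrt 2 : ℝ) : ℂ) ≠ 0 := by
  intro h
  have := sqrt2_mul
  rw [h] at this
  norm_num at this

theorem gH_dS (m : ℂ) : gH * dS m * gH.conjTranspose = eS m := by
  have h2 := sqrt2_ne
  have h3 : ((Real.sqrt 2 : ℝ) : ℂ) ^ 2 = 2 := by rw [sq, sqrt2_mul]
  funext a b
  simp only [Matrix.mul_apply, Matrix.conjTranspose_apply, Fintype.sum_bool]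
  unfold gH dS eS
  cases a <;> cases b <;> simp <;> field_simp <;> rw [h3] <;> ring

theorem gHX_dS (m : ℂ) : gH * gX * dS m * (gH * gX).conjTranspose = eS (-m) := by
  rw [Matrix.conjTranspose_mul, ← gH_dS, ← gX_dS]
  simp only [Matrix.mul_assoc]

end Pool.Agent.Helper74.NQ
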