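import Pool.Agent.Helper74.NQ.CorrDefs

/-!
# NQ: the transform after the query
-/

set_option autoImplicit false
set_option linter.unusedSectionVars false

namespace Pool.Agent.Helper74.NQ

open Function
open Pool.Agent.Helper67.EQP (sg mext mext_def)
open Pool.Agent.Helper65.NQ (chi fh)

variable {Hd J : Type} [Fintype Hd] [DecidableEq Hd] [Fintype J] [DecidableEq J]

/-- the weight of the good part: the probability that the target is in the state `|-⟩` -/
noncomputable def qq (lam : ℕ → Hd ⊕ (J ⊕ Unit) → ℝ) : ℝ :=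
  (1 + (1 - lam 0 (Sum.inr (Sum.inr ()))) * (1 - lam 1 (Sum.inr (Sum.inr ())))) / 2

/-- the means of the header bits at the time of the query -/
noncomputable def mu (lam : ℕ → Hd ⊕ (J ⊕ Unit) → ℝ) (hd : Hd → Bool) (i : Hd) : ℝ :=
  sg (hd i) * ((1 - lam 0 (Sum.inl i)) * (1 - lam 1 (Sum.inl i)))

/-- the factors of the state before the query -/
private noncomputable def rr (lam : ℕ → Hd ⊕ (J ⊕ Unit) → ℝ) (hd : Hd → Bool) :
    Hd ⊕ (J ⊕ Unit) → Matrix Bool Bool ℂ
  | Sum.inl i => dS (mu lam hd i : ℝ)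
  | Sum.inr (Sum.inl j) => eS ((1 - lam 0 (Sum.inr (Sum.inl j))) *
      (1 - lam 1 (Sum.inr (Sum.inl j))) : ℝ)
  | Sum.inr (Sum.inr t) => eS (-((1 - lam 0 (Sum.inr (Sum.inr t))) *
      (1 - lam 1 (Sum.inr (Sum.inr t)))) : ℝ)

private theorem before (A : List Bool → Bool) (lam : ℕ → Hd ⊕ (J ⊕ Unit) → ℝ) (hd : Hd → Bool) :
    depolAll (lam 1) ((Step.gates (g1 hd)).app A (depolAll (lam 0) zeroState)) =
      tens (rr lam hd) := by
  rw [zeroState_tens, depolAll_tens, gates_tens, depolAll_tens]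
  congr 1
  funext w
  rcases w with i | j | t
  · change depol1 (lam 1 (Sum.inl i)) ((if hd i = true then gX else gI) *
      depol1 (lam 0 (Sum.inl i)) e0 * (if hd i = true then gX else gI).conjTranspose) =
      dS (mu lam hd i : ℝ)
    rw [e0_eq, depol1_dS]
    unfold mu
    cases hd i
    · rw [if_neg (by simp), gI_dS, depol1_dS]
      congr 1
      simp
      ring
    · rw [if_pos rfl, gX_dS, depol1_dS]
      congr 1
      simp
      ring
  · change depol1 (lam 1 (Sum.inr (Sum.inl j))) (gH *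
      depol1 (lam 0 (Sum.inr (Sum.inl j))) e0 * gH.conjTranspose) = eS _
    rw [e0_eq, depol1_dS, gH_dS, depol1_eS]
    congr 1
    simp
    ring
  · change depol1 (lam 1 (Sum.inr (Sum.inr t))) (gH * gX *
      depol1 (lam 0 (Sum.inr (Sum.inr t))) e0 * (gH * gX).conjTranspose) = eS _
    rw [e0_eq, depol1_dS, gHX_dS, depol1_eS]
    congr 1
    simp
    ring

theorem sum_split {M : Type} [AddCommMonoid M] (F : (Hd ⊕ (J ⊕ Unit) → Bool) → M) :
    ∑ z, F z = ∑ hh : Hd → Bool, ∑ x : J → Bool, ∑ b : Bool,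
      F (Sum.elim hh (Sum.elim x fun _ => b)) := by
  have h1 : ∑ z, F z = ∑ p : (Hd → Bool) × (J ⊕ Unit → Bool), F (Sum.elim p.1 p.2) := by
    refine Fintype.sum_equiv (Equiv.sumArrowEquivProdArrow Hd (J ⊕ Unit) Bool) _ _ ?_
    intro z
    congr 1
    funext w
    rcases w with i | j <;> rfl
  rw [h1, Fintype.sum_prod_type]
  refine Finset.sum_congr rfl ?_
  intro hh _
  have h2 : ∑ p : J ⊕ Unit → Bool, F (Sum.elim hh p) =
      ∑ p : (J → Bool) × (Unit → Bool), F (Sum.elim hh (Sum.elim p.1 p.2)) := by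
    refine Fintype.sum_equiv (Equiv.sumArrowEquivProdArrow J Unit Bool) _ _ ?_
    intro z
    congr 2
    funext w
    rcases w with i | j <;> rfl
  rw [h2, Fintype.sum_prod_type]
  refine Finset.sum_congr rfl ?_
  intro x _
  refine Fintype.sum_equiv (Equiv.funUnique Unit Bool) _ _ ?_
  intro b
  congr 3

private theorem qmap_elim (A : List Bool → Bool) (l : List (Hd ⊕ (J ⊕ Unit)))
    (h : Sum.inr (Sum.inr ()) ∉ l) (hh : Hd → Bool) (x : J → Bool) (b : Bool) :
    qmap A l (Sum.inr (Sum.inr ())) (Sum.elim hh (Sum.elim x fun _ => b)) =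
      Sum.elim hh (Sum.elim x fun _ => xor b (ff A l hh x)) := by
  have h1 : l.map (Sum.elim hh (Sum.elim x fun _ => b)) =
      l.map (Sum.elim hh (Sum.elim x fun _ => false)) := by
    refine List.map_congr_left ?_
    intro w hw
    rcases w with i | j | t
    · rfl
    · rfl
    · exact absurd hw h
  unfold qmap ff
  rw [h1]
  funext w
  rcases w with i | j | t
  · rw [update_of_ne (by simp)]
    rfl
  · rw [update_of_ne (by simp)]
    rfl
  · rw [update_self]
    rfl

private theorem shift_elim (u : J → Bool) (hh : Hd → Bool) (x : J → Bool) (b : Bool) :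
    shift u (Sum.elim hh (Sum.elim x fun _ => b)) =
      Sum.elim hh (Sum.elim (fun j => xor (x j) (u j)) fun _ => b) := by
  funext w
  rcases w with i | j | t <;> rfl

private theorem tgt (τ : ℝ) (a a' : Bool) :
    ∑ b : Bool, eS (-τ : ℝ) (xor b a) (xor b a') =
      (((1 + τ) / 2 * (sg a * sg a') + (1 - (1 + τ) / 2) : ℝ) : ℂ) := by
  rw [Fintype.sum_bool]
  unfold eS
  cases a <;> cases a' <;> simp <;> ring

theorem corrB_query (A : List Bool → Bool) (lam : ℕ → Hd ⊕ (J ⊕ Unit) → ℝ) (hd : Hd → Bool)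
    (l : List (Hd ⊕ (J ⊕ Unit))) (h : Sum.inr (Sum.inr ()) ∉ l) (u : J → Bool) :
    corrB ((Step.query l (Sum.inr (Sum.inr ())) h).app A
      (depolAll (lam 1) ((Step.gates (g1 hd)).app A (depolAll (lam 0) zeroState)))) u =
    (((∏ j, if u j = true then (1 - lam 0 (Sum.inr (Sum.inl j))) * (1 - lam 1 (Sum.inr (Sum.inl j)))
      else 1) * mext (mu lam hd) (fun hh => qq lam * ((∑ x : J → Bool, sg (ff A l hh x) *
        sg (ff A l hh (fun j => xor (x j) (u j)))) / 2 ^ Fintype.card J) + (1 - qq lam)) : ℝ) : ℂ) := by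
  rw [before]
  unfold corrB
  rw [sum_split]
  have h1 : ∀ (hh : Hd → Bool) (x : J → Bool), ∑ b : Bool,
      (Step.query l (Sum.inr (Sum.inr ())) h).app A (tens (rr lam hd))
        (Sum.elim hh (Sum.elim x fun _ => b)) (shift u (Sum.elim hh (Sum.elim x fun _ => b))) =
      (((∏ i, (1 + sg (hh i) * mu lam hd i) / 2) *
        ((∏ j, if u j = true then (1 - lam 0 (Sum.inr (Sum.inl j))) *
          (1 - lam 1 (Sum.inr (Sum.inl j))) else 1) / 2 ^ Fintype.card J *
        (qq lam * (sg (ff A l hh x) * sg (ff A l hh (fun j => xor (x j) (u j)))) +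
          (1 - qq lam))) : ℝ) : ℂ) := by
    intro hh x
    have h2 : ∀ b : Bool, (Step.query l (Sum.inr (Sum.inr ())) h).app A (tens (rr lam hd))
        (Sum.elim hh (Sum.elim x fun _ => b)) (shift u (Sum.elim hh (Sum.elim x fun _ => b))) =
        (∏ i, dS (mu lam hd i : ℝ) (hh i) (hh i)) *
        ((∏ j, eS ((1 - lam 0 (Sum.inr (Sum.inl j))) * (1 - lam 1 (Sum.inr (Sum.inl j))) : ℝ) (x j)
          (xor (x j) (u j))) *
        eS (-((1 - lam 0 (Sum.inr (Sum.inr ()))) * (1 - lam 1 (Sum.inr (Sum.inr ())))) : ℝ)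
          (xor b (ff A l hh x)) (xor b (ff A l hh (fun j => xor (x j) (u j))))) := by
      intro b
      change tens (rr lam hd) (qmap A l _ _) (qmap A l _ _) = _
      rw [shift_elim, qmap_elim A l h, qmap_elim A l h, tens_apply, Fintype.prod_sum_type,
        Fintype.prod_sum_type, Finset.univ_unique (α := Unit), Finset.prod_singleton]
      rfl
    simp_rw [h2, ← Finset.mul_sum, tgt]
    have h3 : ∏ i, dS (mu lam hd i : ℝ) (hh i) (hh i) =
        ((∏ i, (1 + sg (hh i) * mu lam hd i) / 2 : ℝ) : ℂ) := by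
      rw [Complex.ofReal_prod]
      refine Finset.prod_congr rfl ?_
      intro i _
      unfold dS
      cases hh i <;> simp <;> ring
    have h4 : ∏ j, eS ((1 - lam 0 (Sum.inr (Sum.inl j))) *
        (1 - lam 1 (Sum.inr (Sum.inl j))) : ℝ) (x j) (xor (x j) (u j)) =
        (((∏ j, if u j = true then (1 - lam 0 (Sum.inr (Sum.inl j))) *
          (1 - lam 1 (Sum.inr (Sum.inl j))) else 1) / 2 ^ Fintype.card J : ℝ) : ℂ) := by
      rw [← Finset.card_univ, ← Finset.prod_const, ← Finset.prod_div_distrib, Complex.ofReal_prod]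
      refine Finset.prod_congr rfl ?_
      intro j _
      unfold eS
      cases x j <;> cases u j <;> simp
    rw [h3, h4]
    unfold qq
    push_cast
    ring
  simp_rw [h1]
  rw [mext_def, Finset.mul_sum, Complex.ofReal_sum]
  refine Finset.sum_congr rfl ?_
  intro hh _
  rw [← Complex.ofReal_sum]
  congr 1
  have hN : (2 : ℝ) ^ Fintype.card J ≠ 0 := by positivity
  have hc : ∑ _x : J → Bool, (1 - qq lam) = 2 ^ Fintype.card J * (1 - qq lam) := by
    rw [Finset.sum_const, Finset.card_univ, Fintype.card_fun, Fintype.card_bool, nsmul_eq_mul]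
    push_cast
    rfl
  rw [← Finset.mul_sum, ← Finset.mul_sum, Finset.sum_add_distrib, ← Finset.mul_sum, hc]
  field_simp

end Pool.Agent.Helper74.NQ
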