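import Pool.Agent.Helper74.NQ.Corr
import Pool.Agent.Helper74.NQ.Query

/-!
# NQ: the law of the outcome of the device
-/

set_option autoImplicit false

namespace Pool.Agent.Helper74.NQ

open Function
open Pool.Agent.Helper67.EQP (sg mext)
open Pool.Agent.Helper65.NQ (chi fh)

variable {Hd J : Type} [Fintype Hd] [DecidableEq Hd] [Fintype J] [DecidableEq J]

/-- the noise of the outcome -/
noncomputable def dl (lam : ℕ → Hd ⊕ (J ⊕ Unit) → ℝ) (j : J) : ℝ :=
  (1 - lam 0 (Sum.inr (Sum.inl j))) * (1 - lam 1 (Sum.inr (Sum.inl j))) *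
    ((1 - lam 2 (Sum.inr (Sum.inl j))) * (1 - lam 3 (Sum.inr (Sum.inl j))))

/-- the law for a character -/
private theorem law_chi (A : List Bool → Bool) (lam : ℕ → Hd ⊕ (J ⊕ Unit) → ℝ) (hd : Hd → Bool)
    (l : List (Hd ⊕ (J ⊕ Unit))) (h : Sum.inr (Sum.inr ()) ∉ l) (u : J → Bool) :
    ∑ z, outProb A lam (devSteps hd l h) z * chi u (body z) =
      mext (mu lam hd) (fun hh => qq lam * mext (dl lam) (fun c =>
        ∑ k, fh (ff A l hh) k ^ 2 * chi u (fun j => xor (k j) (c j))) +
          (1 - qq lam) * mext (dl lam) (fun y => chi u y)) := by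
  have h1 : ∑ z, outProb A lam (devSteps hd l h) z * chi u (body z) =
      (dgB (runSteps A lam 0 (devSteps hd l h) (depolAll (lam 0) zeroState)) u).re := by
    unfold dgB outProb
    rw [Complex.re_sum]
    refine Finset.sum_congr rfl fun z _ => ?_
    rw [Complex.re_mul_ofReal]
  rw [h1, devSteps_eq]
  simp only [runSteps]
  rw [dgB_depolAll, dgB_gates3, corrB_depolAll, corrB_query, ← Complex.ofReal_mul,
    ← Complex.ofReal_mul, Complex.ofReal_re]
  have h2 : ∀ hh : Hd → Bool, qq lam * mext (dl lam) (fun c =>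
        ∑ k, fh (ff A l hh) k ^ 2 * chi u (fun j => xor (k j) (c j))) +
          (1 - qq lam) * mext (dl lam) (fun y => chi u y) =
      Pool.Agent.Helper13.NQ.fac (dl lam) u * (qq lam * ((∑ x : J → Bool, sg (ff A l hh x) *
        sg (ff A l hh (fun j => xor (x j) (u j)))) / 2 ^ Fintype.card J) + (1 - qq lam)) := by
    intro hh
    rw [Pool.Agent.Helper13.NQ.mext_fh_chi, Pool.Agent.Helper13.NQ.mext_chi]
    ring
  simp_rw [h2]
  rw [Pool.Agent.Helper67.EQP.mext_mul_left, ← mul_assoc, ← mul_assoc]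
  congr 1
  unfold Pool.Agent.Helper13.NQ.fac dl
  rw [← Finset.prod_mul_distrib, ← Finset.prod_mul_distrib]
  refine Finset.prod_congr rfl fun j _ => ?_
  split_ifs <;> ring

theorem law (A : List Bool → Bool) (lam : ℕ → Hd ⊕ (J ⊕ Unit) → ℝ) (hd : Hd → Bool)
    (l : List (Hd ⊕ (J ⊕ Unit))) (h : Sum.inr (Sum.inr ()) ∉ l) (G : (J → Bool) → ℝ) :
    ∑ z, outProb A lam (devSteps hd l h) z * G (body z) =
      mext (mu lam hd) (fun hh => qq lam * mext (dl lam) (fun c =>
        ∑ k, fh (ff A l hh) k ^ 2 * G (fun j => xor (k j) (c j))) +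
          (1 - qq lam) * mext (dl lam) G) := by
  obtain ⟨a, ha⟩ : ∃ a : (J → Bool) → ℝ, G = fun y => ∑ u, a u * chi u y :=
    ⟨_, funext (Pool.Agent.Helper13.NQ.eq_sum_chi G)⟩
  subst ha
  have h1 : ∑ z, outProb A lam (devSteps hd l h) z * ∑ u, a u * chi u (body z) =
      ∑ u, a u * ∑ z, outProb A lam (devSteps hd l h) z * chi u (body z) := by
    simp_rw [Finset.mul_sum]
    rw [Finset.sum_comm]
    refine Finset.sum_congr rfl fun u _ => Finset.sum_congr rfl fun z _ => ?_
    ring
  have h2 : ∀ hh : Hd → Bool, qq lam * mext (dl lam) (fun c =>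
        ∑ k, fh (ff A l hh) k ^ 2 * ∑ u, a u * chi u (fun j => xor (k j) (c j))) +
          (1 - qq lam) * mext (dl lam) (fun y => ∑ u, a u * chi u y) =
      ∑ u, a u * (qq lam * mext (dl lam) (fun c =>
        ∑ k, fh (ff A l hh) k ^ 2 * chi u (fun j => xor (k j) (c j))) +
          (1 - qq lam) * mext (dl lam) (fun y => chi u y)) := by
    intro hh
    have e1 : (fun c : J → Bool =>
        ∑ k, fh (ff A l hh) k ^ 2 * ∑ u, a u * chi u (fun j => xor (k j) (c j))) =
        fun c => ∑ u ∈ Finset.univ, a u *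
          ∑ k, fh (ff A l hh) k ^ 2 * chi u (fun j => xor (k j) (c j)) := by
      funext c
      simp_rw [Finset.mul_sum]
      rw [Finset.sum_comm]
      refine Finset.sum_congr rfl fun u _ => Finset.sum_congr rfl fun k _ => ?_
      ring
    rw [e1, Pool.Agent.Helper67.EQP.mext_sum Finset.univ (dl lam) (fun u c => a u *
      ∑ k, fh (ff A l hh) k ^ 2 * chi u (fun j => xor (k j) (c j))),
      Pool.Agent.Helper67.EQP.mext_sum Finset.univ (dl lam) (fun u c => a u * chi u c)]
    simp_rw [Pool.Agent.Helper67.EQP.mext_mul_left]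
    rw [Finset.mul_sum, Finset.mul_sum, ← Finset.sum_add_distrib]
    refine Finset.sum_congr rfl fun u _ => ?_
    ring
  simp_rw [h2]
  rw [h1, Pool.Agent.Helper67.EQP.mext_sum Finset.univ (mu lam hd) (fun u hh => a u *
    (qq lam * mext (dl lam) (fun c =>
        ∑ k, fh (ff A l hh) k ^ 2 * chi u (fun j => xor (k j) (c j))) +
          (1 - qq lam) * mext (dl lam) (fun y => chi u y)))]
  refine Finset.sum_congr rfl fun u _ => ?_
  rw [Pool.Agent.Helper67.EQP.mext_mul_left, law_chi]

end Pool.Agent.Helper74.NQ
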