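import Pool.Agent.Helper74.NQ.Prod
import Pool.Agent.Helper65.NQ.Four

/-!
# NQ: the transforms of a state on header, body and target
-/

set_option autoImplicit false

namespace Pool.Agent.Helper74.NQ

open Function
open Pool.Agent.Helper67.EQP (sg mext)
open Pool.Agent.Helper65.NQ (chi fh)

variable {Hd J : Type}

/-- the body bits -/
def body (z : Hd ⊕ (J ⊕ Unit) → Bool) : J → Bool := fun j => z (Sum.inr (Sum.inl j))

/-- add `u` to the body bits -/
def shift (u : J → Bool) (z : Hd ⊕ (J ⊕ Unit) → Bool) : Hd ⊕ (J ⊕ Unit) → Bool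
  | Sum.inl i => z (Sum.inl i)
  | Sum.inr (Sum.inl j) => xor (z (Sum.inr (Sum.inl j))) (u j)
  | Sum.inr (Sum.inr t) => z (Sum.inr (Sum.inr t))

/-- the gates of the last step -/
noncomputable def g3 : Hd ⊕ (J ⊕ Unit) → Matrix Bool Bool ℂ
  | Sum.inl _ => gI
  | Sum.inr (Sum.inl _) => gH
  | Sum.inr (Sum.inr _) => gI

/-- the gates of the first step -/
noncomputable def g1 (hd : Hd → Bool) : Hd ⊕ (J ⊕ Unit) → Matrix Bool Bool ℂ
  | Sum.inl i => if hd i = true then gX else gI
  | Sum.inr (Sum.inl _) => gH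
  | Sum.inr (Sum.inr _) => gH * gX

theorem devSteps_eq (hd : Hd → Bool) (l : List (Hd ⊕ (J ⊕ Unit))) (h : Sum.inr (Sum.inr ()) ∉ l) :
    devSteps hd l h = [Step.gates (g1 hd), Step.query l (Sum.inr (Sum.inr ())) h,
      Step.gates g3] := by
  unfold devSteps
  congr 2

/-- the function of the body bits which is queried, if the header bits are `h` -/
def ff (A : List Bool → Bool) (l : List (Hd ⊕ (J ⊕ Unit))) (h : Hd → Bool) (x : J → Bool) : Bool :=
  A (l.map (Sum.elim h (Sum.elim x fun _ => false)))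

variable [Fintype Hd] [DecidableEq Hd] [Fintype J] [DecidableEq J]

noncomputable def corrB (ρ : DM (Hd ⊕ (J ⊕ Unit))) (u : J → Bool) : ℂ := ∑ z, ρ z (shift u z)

noncomputable def dgB (ρ : DM (Hd ⊕ (J ⊕ Unit))) (u : J → Bool) : ℂ :=
  ∑ z, ρ z z * ((chi u (body z) : ℝ) : ℂ)

end Pool.Agent.Helper74.NQ
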