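import Pool.Agent.Helper80.NQ.Defs
import Pool.Agent.Helper74.NQ.CorrDefs
import Pool.Agent.Helper65.NQ.Rep

/-!
# NQ: the string which is read by the oracle gate, and the classes of the header and body qubits
-/

set_option autoImplicit false

namespace Pool.Agent.Helper74.NQ

open Function Finset
open Pool.Agent.Helper80.NQ
open Pool.Agent.Helper65.NQ (dec)

/-- header and body bits, in the order of the oracle gate -/
def comb {κ : List Bool} {M : ℕ} (hh : Hd κ M → Bool) (x : Bd κ M → Bool)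
    (i : Fin (size κ M)) : Bool :=
  if h : i.1 % cls κ < κ.length then hh ⟨i, h⟩ else x ⟨i, h⟩

theorem ff_wire (B : List Bool → Bool) (κ : List Bool) (M : ℕ) (hh : Hd κ M → Bool)
    (x : Bd κ M → Bool) :
    ff B ((List.finRange (size κ M)).map (wire κ M)) hh x = B (List.ofFn (comb hh x)) := by
  unfold ff
  rw [List.map_map, List.ofFn_eq_map]
  congr 1
  refine List.map_congr_left ?_
  intro i _
  rw [Function.comp_apply]
  unfold wire comb
  split_ifs <;> rfl

theorem cls_pos (κ : List Bool) : 0 < cls κ := by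
  unfold cls
  omega

/-- the class of a body qubit -/
def clB (κ : List Bool) (M : ℕ) (i : Bd κ M) : Fin (2 * Pool.Agent.Helper67.EQP.par κ + 6) :=
  ⟨i.1.1 % cls κ - κ.length, by
    have h1 := i.2
    have h2 := Nat.mod_lt i.1.1 (cls_pos κ)
    have h3 : cls κ = κ.length + (2 * Pool.Agent.Helper67.EQP.par κ + 6) := rfl
    omega⟩

/-- the class of a header qubit -/
def clH (κ : List Bool) (M : ℕ) (i : Hd κ M) : Fin κ.length := ⟨i.1.1 % cls κ, i.2⟩

theorem clB_iff {κ : List Bool} {M : ℕ} (i : Bd κ M) (j : Fin (2 * Pool.Agent.Helper67.EQP.par κ + 6)) :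
    clB κ M i = j ↔ i.1.1 % cls κ = κ.length + j.1 := by
  have h1 := i.2
  unfold clB
  rw [Fin.ext_iff]
  show i.1.1 % cls κ - κ.length = j.1 ↔ _
  omega

theorem clH_iff {κ : List Bool} {M : ℕ} (i : Hd κ M) (j : Fin κ.length) :
    clH κ M i = j ↔ i.1.1 % cls κ = j.1 := by
  unfold clH
  rw [Fin.ext_iff]

theorem maj_eq {κ : List Bool} {M : ℕ} (z : Qb κ M → Bool)
    (j : Fin (2 * Pool.Agent.Helper67.EQP.par κ + 6)) :
    maj z j.1 = dec (clB κ M) (body z) j := by
  unfold maj dec body
  simp only [clB_iff]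

theorem hdval_eq (κ : List Bool) (M : ℕ) (i : Hd κ M) :
    κ.getD (i.1.1 % cls κ) false = κ.get (clH κ M i) := by
  unfold clH
  rw [List.getD_eq_getElem _ _ i.2]
  rfl

theorem comb_hd {κ : List Bool} {M : ℕ} (hh : Hd κ M → Bool) (x : Bd κ M → Bool)
    (j : ℕ) (hj : j < κ.length) (b : Bool) :
    (univ.filter fun i : Fin (size κ M) => i.1 % cls κ = j ∧ comb hh x i = b).card =
      (univ.filter fun i : Hd κ M => i.1.1 % cls κ = j ∧ hh i = b).card := by
  symm
  refine card_bij (fun i _ => i.1) ?_ ?_ ?_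
  · intro i hi
    obtain ⟨h1, h2⟩ := (mem_filter.1 hi).2
    refine mem_filter.2 ⟨mem_univ _, h1, ?_⟩
    unfold comb
    rw [dif_pos i.2]
    exact h2
  · intro i _ i' _ h
    exact Subtype.ext h
  · intro i hi
    obtain ⟨h1, h2⟩ := (mem_filter.1 hi).2
    have h3 : i.1 % cls κ < κ.length := by omega
    unfold comb at h2
    rw [dif_pos h3] at h2
    exact ⟨⟨i, h3⟩, mem_filter.2 ⟨mem_univ _, h1, h2⟩, rfl⟩

theorem comb_bd {κ : List Bool} {M : ℕ} (hh : Hd κ M → Bool) (x : Bd κ M → Bool)
    (j : ℕ) (hj : κ.length ≤ j) (b : Bool) :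
    (univ.filter fun i : Fin (size κ M) => i.1 % cls κ = j ∧ comb hh x i = b).card =
      (univ.filter fun i : Bd κ M => i.1.1 % cls κ = j ∧ x i = b).card := by
  symm
  refine card_bij (fun i _ => i.1) ?_ ?_ ?_
  · intro i hi
    obtain ⟨h1, h2⟩ := (mem_filter.1 hi).2
    refine mem_filter.2 ⟨mem_univ _, h1, ?_⟩
    unfold comb
    rw [dif_neg i.2]
    exact h2
  · intro i _ i' _ h
    exact Subtype.ext h
  · intro i hi
    obtain ⟨h1, h2⟩ := (mem_filter.1 hi).2
    have h3 : ¬ i.1 % cls κ < κ.length := by omega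
    unfold comb at h2
    rw [dif_neg h3] at h2
    exact ⟨⟨i, h3⟩, mem_filter.2 ⟨mem_univ _, h1, h2⟩, rfl⟩

/-- the parities of the classes of the string which is read are those of the body -/
theorem par_comb {κ : List Bool} {M : ℕ} (hh : Hd κ M → Bool) (x : Bd κ M → Bool)
    (j : Fin (2 * Pool.Agent.Helper67.EQP.par κ + 6)) :
    decide (Odd (univ.filter fun i : Fin (size κ M) => i.1 % cls κ = κ.length + j.1 ∧
      comb hh x i = true).card) = Pool.Agent.Helper65.NQ.par (clB κ M) x j := by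
  unfold Pool.Agent.Helper65.NQ.par
  rw [comb_bd hh x _ (Nat.le_add_right _ _)]
  simp only [clB_iff]

/-- the majorities of the classes of the string which is read are those of the header -/
theorem dec_comb {κ : List Bool} {M : ℕ} (hh : Hd κ M → Bool) (x : Bd κ M → Bool)
    (j : Fin κ.length) :
    decide ((univ.filter fun i : Fin (size κ M) => i.1 % cls κ = j.1 ∧
        comb hh x i = false).card <
      (univ.filter fun i : Fin (size κ M) => i.1 % cls κ = j.1 ∧ comb hh x i = true).card) =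
      dec (clH κ M) hh j := by
  unfold dec
  rw [comb_hd hh x _ j.2, comb_hd hh x _ j.2]
  simp only [clH_iff]

theorem card_clB (κ : List Bool) (M : ℕ) (j : Fin (2 * Pool.Agent.Helper67.EQP.par κ + 6)) :
    (univ.filter fun i : Bd κ M => clB κ M i = j).card =
      (univ.filter fun i : Fin (size κ M) => i.1 % cls κ = κ.length + j.1).card := by
  refine card_bij (fun i _ => i.1) ?_ ?_ ?_
  · intro i hi
    exact mem_filter.2 ⟨mem_univ _, (clB_iff i j).1 (mem_filter.1 hi).2⟩
  · intro i _ i' _ h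
    exact Subtype.ext h
  · intro i hi
    have h1 := (mem_filter.1 hi).2
    have h3 : ¬ i.1 % cls κ < κ.length := by omega
    exact ⟨⟨i, h3⟩, mem_filter.2 ⟨mem_univ _, (clB_iff _ j).2 h1⟩, rfl⟩

theorem card_clH (κ : List Bool) (M : ℕ) (j : Fin κ.length) :
    (univ.filter fun i : Hd κ M => clH κ M i = j).card =
      (univ.filter fun i : Fin (size κ M) => i.1 % cls κ = j.1).card := by
  refine card_bij (fun i _ => i.1) ?_ ?_ ?_
  · intro i hi
    exact mem_filter.2 ⟨mem_univ _, (clH_iff i j).1 (mem_filter.1 hi).2⟩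
  · intro i _ i' _ h
    exact Subtype.ext h
  · intro i hi
    have h1 := (mem_filter.1 hi).2
    have h3 : i.1 % cls κ < κ.length := by omega
    exact ⟨⟨i, h3⟩, mem_filter.2 ⟨mem_univ _, (clH_iff _ j).2 h1⟩, rfl⟩

end Pool.Agent.Helper74.NQ
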