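import Mathlib

/-!
# Noisy quantum circuits with an oracle. Definitions

A circuit acts on the qubits `W`. It starts in the state `|0...0⟩`. A step is either a layer of
one-qubit gates or one oracle query `|z⟩ ↦ |z with bit t replaced by z_t ⊕ A(z_l)⟩`. After the
preparation and after each step every qubit is depolarised. At the end all qubits are measured.
-/

set_option autoImplicit false

namespace Pool.Agent.Helper74.NQ

open Function

/-- Density matrices of the qubits `W`. -/
abbrev DM (W : Type) : Type := Matrix (W → Bool) (W → Bool) ℂ

section

variable {W : Type} [Fintype W] [DecidableEq W]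

/-- The state `|0...0⟩⟨0...0|`. -/
def zeroState : DM W := fun x y => if x = (fun _ => false) ∧ y = (fun _ => false) then 1 else 0

/-- The depolarising channel with rate `lam` on the qubit `j`: with probability `lam` this qubit is
replaced by a maximally mixed one, `ρ ↦ (1 - lam) ρ + lam (I/2 ⊗ tr_j ρ)`. -/
noncomputable def depol (lam : ℝ) (j : W) (ρ : DM W) : DM W := fun x y =>
  (1 - lam) * ρ x y + lam * (if x j = y j then
    (ρ (update x j false) (update y j false) + ρ (update x j true) (update y j true)) / 2 else 0)

/-- Every qubit `j` is depolarised with rate `lam j`. -/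
noncomputable def depolAll (lam : W → ℝ) (ρ : DM W) : DM W :=
  (Finset.univ : Finset W).toList.foldr (fun j σ => depol (lam j) j σ) ρ

/-- The tensor product of the one-qubit gates `g j`. -/
def tens (g : W → Matrix Bool Bool ℂ) : DM W := fun x y => ∏ j, g j (x j) (y j)

/-- One step: the one-qubit gate `g j` on every qubit `j`, or the query
`|z⟩ ↦ |z with the bit t replaced by z t ⊕ A (z_l)⟩`. -/
inductive Step (W : Type) : Type
  | gates (g : W → Matrix Bool Bool ℂ) : Step W
  | query (l : List W) (t : W) (h : t ∉ l) : Step W

/-- The effect of a query on the basis states. -/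
def qmap (A : List Bool → Bool) (l : List W) (t : W) (z : W → Bool) : W → Bool :=
  update z t (xor (z t) (A (l.map z)))

/-- The state after one noiseless step. -/
def Step.app (A : List Bool → Bool) : Step W → DM W → DM W
  | .gates g, ρ => tens g * ρ * (tens g).conjTranspose
  | .query l t _, ρ => fun x y => ρ (qmap A l t x) (qmap A l t y)

/-- The state after the steps of a list; `lam r j` is the rate of the noise on the qubit `j` after
step `r`, and `r` is the number of the last step which has been done. -/
noncomputable def runSteps (A : List Bool → Bool) (lam : ℕ → W → ℝ) : ℕ → List (Step W) → DM W → DM W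
  | _, [], ρ => ρ
  | r, s :: ss, ρ => runSteps A lam (r + 1) ss (depolAll (lam (r + 1)) (s.app A ρ))

/-- The probability that the measurement of all qubits gives `z`. -/
noncomputable def outProb (A : List Bool → Bool) (lam : ℕ → W → ℝ) (ss : List (Step W))
    (z : W → Bool) : ℝ := (runSteps A lam 0 ss (depolAll (lam 0) zeroState) z z).re

end

/-- The identity gate. -/
def gI : Matrix Bool Bool ℂ := fun a b => if a = b then 1 else 0

/-- The gate `X`. -/
def gX : Matrix Bool Bool ℂ := fun a b => if a = b then 0 else 1

/-- The Hadamard gate. -/
noncomputable def gH : Matrix Bool Bool ℂ := fun a b => (if a && b then -1 else 1) / (Real.sqrt 2 : ℝ)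

/-- The steps of the device: the header qubits `Hd` are prepared in the basis state `hd`, the body
qubits `J` get a Hadamard gate, the target qubit is prepared in the state `H X |0⟩`; one query;
a Hadamard gate on the body qubits. -/
noncomputable def devSteps {Hd J : Type} (hd : Hd → Bool) (l : List (Hd ⊕ (J ⊕ Unit)))
    (h : Sum.inr (Sum.inr ()) ∉ l) : List (Step (Hd ⊕ (J ⊕ Unit))) :=
  [Step.gates (fun w => match w with
      | Sum.inl i => if hd i = true then gX else gI
      | Sum.inr (Sum.inl _) => gH
      | Sum.inr (Sum.inr _) => gH * gX),
    Step.query l (Sum.inr (Sum.inr ())) h,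
    Step.gates (fun w => match w with
      | Sum.inl _ => gI
      | Sum.inr (Sum.inl _) => gH
      | Sum.inr (Sum.inr _) => gI)]

end Pool.Agent.Helper74.NQ
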