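import Pool.Agent.Helper74.NQ.Bridge
import Pool.Agent.Helper74.NQ.Law
import Pool.Agent.Helper65.NQ.Hoeff

/-!
# NQ: independent runs
-/

set_option autoImplicit false
set_option linter.unusedSectionVars false

namespace Pool.Agent.Helper74.NQ

open Function Finset
open Pool.Agent.Helper80.NQ
open Pool.Agent.Helper65.NQ (dec fh sum_fh_sq hoeff)
open Pool.Agent.Helper67.EQP (pm sg mext mext_const mext_mono mext_weight_nonneg spin)

section general

variable {ι X Y : Type} [Fintype ι] [DecidableEq ι] [Fintype X] [Fintype Y] [DecidableEq Y]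

/-- the image of a product of weights -/
theorem pm_push (w : ι → X → ℝ) (φ : X → Y) (F : (ι → Y) → ℝ) :
    pm w (fun z => F (fun j => φ (z j))) =
      pm (fun j y => ∑ x, if φ x = y then w j x else 0) F := by
  classical
  unfold pm
  have h1 : ∀ y : ι → Y, (∏ j, ∑ x, if φ x = y j then w j x else 0) =
      ∑ z : ι → X, if (fun j => φ (z j)) = y then ∏ j, w j (z j) else 0 := by
    intro y
    rw [Finset.prod_univ_sum, Fintype.piFinset_univ]
    refine sum_congr rfl ?_
    intro z _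
    by_cases h : (fun j => φ (z j)) = y
    · rw [if_pos h]
      refine prod_congr rfl ?_
      intro j _
      rw [if_pos (congrFun h j)]
    · rw [if_neg h]
      have : ∃ j, φ (z j) ≠ y j := by
        by_contra hcon
        push Not at hcon
        exact h (funext hcon)
      obtain ⟨j, hj⟩ := this
      exact prod_eq_zero (mem_univ j) (if_neg hj)
  simp_rw [h1, sum_mul]
  rw [sum_comm]
  refine sum_congr rfl ?_
  intro z _
  simp_rw [ite_mul, zero_mul]
  rw [sum_ite_eq]
  simp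

end general

section device

variable {κ : List Bool} {M : ℕ}

/-- the law of the body outcome -/
noncomputable def bodyLaw (B : List Bool → Bool) (κ : List Bool) (M : ℕ)
    (r : ℕ → Qb κ M → ℝ) (y : Bd κ M → Bool) : ℝ :=
  ∑ z : Qb κ M → Bool, if body z = y then outProb B r (steps κ M) z else 0

theorem bodyLaw_sum (B : List Bool → Bool) (r : ℕ → Qb κ M → ℝ) (G : (Bd κ M → Bool) → ℝ) :
    ∑ y, bodyLaw B κ M r y * G y = ∑ z, outProb B r (steps κ M) z * G (body z) := by
  unfold bodyLaw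
  simp_rw [sum_mul]
  rw [sum_comm]
  refine sum_congr rfl ?_
  intro z _
  simp_rw [ite_mul, zero_mul]
  rw [sum_ite_eq]
  simp

private theorem mul_mem {a b : ℝ} (ha : 0 ≤ a ∧ a ≤ 1) (hb : 0 ≤ b ∧ b ≤ 1) :
    0 ≤ a * b ∧ a * b ≤ 1 :=
  ⟨mul_nonneg ha.1 hb.1, mul_le_one₀ ha.2 hb.1 hb.2⟩

private theorem dl_mem {r : ℕ → Qb κ M → ℝ} (hr : ∀ q, ∀ p < 4, 0 ≤ r p q ∧ r p q ≤ 1)
    (j : Bd κ M) : 0 ≤ dl r j ∧ dl r j ≤ 1 := by
  have h : ∀ p < 4, 0 ≤ 1 - r p (Sum.inr (Sum.inl j)) ∧ 1 - r p (Sum.inr (Sum.inl j)) ≤ 1 := by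
    intro p hp
    obtain ⟨h1, h2⟩ := hr (Sum.inr (Sum.inl j)) p hp
    constructor <;> linarith
  unfold dl
  exact mul_mem (mul_mem (h 0 (by norm_num)) (h 1 (by norm_num)))
    (mul_mem (h 2 (by norm_num)) (h 3 (by norm_num)))

private theorem mu_mem {r : ℕ → Qb κ M → ℝ} (hr : ∀ q, ∀ p < 4, 0 ≤ r p q ∧ r p q ≤ 1)
    (hd : Hd κ M → Bool) (i : Hd κ M) : |mu r hd i| ≤ 1 := by
  have h : ∀ p < 4, 0 ≤ 1 - r p (Sum.inl i) ∧ 1 - r p (Sum.inl i) ≤ 1 := by
    intro p hp
    obtain ⟨h1, h2⟩ := hr (Sum.inl i) p hp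
    constructor <;> linarith
  unfold mu
  have h1 := mul_mem (h 0 (by norm_num)) (h 1 (by norm_num))
  rw [abs_mul, Pool.Agent.Helper67.EQP.abs_sg, one_mul, abs_of_nonneg h1.1]
  exact h1.2

private theorem qq_mem {r : ℕ → Qb κ M → ℝ} (hr : ∀ q, ∀ p < 4, 0 ≤ r p q ∧ r p q ≤ 1) :
    1 / 2 ≤ qq r ∧ qq r ≤ 1 := by
  have h : ∀ p < 4, 0 ≤ 1 - r p (Sum.inr (Sum.inr ())) ∧ 1 - r p (Sum.inr (Sum.inr ())) ≤ 1 := by
    intro p hp
    obtain ⟨h1, h2⟩ := hr (Sum.inr (Sum.inr ())) p hp
    constructor <;> linarith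
  have h1 := mul_mem (h 0 (by norm_num)) (h 1 (by norm_num))
  unfold qq
  constructor <;> linarith

private theorem mext_nonneg {ι : Type} [Fintype ι] [DecidableEq ι] {y : ι → ℝ}
    (hy : ∀ i, |y i| ≤ 1) {f : (ι → Bool) → ℝ} (hf : ∀ z, 0 ≤ f z) : 0 ≤ mext y f := by
  have h := mext_mono hy (f := fun _ => 0) hf
  rwa [mext_const] at h

theorem bodyLaw_nonneg (B : List Bool → Bool) {r : ℕ → Qb κ M → ℝ}
    (hr : ∀ q, ∀ p < 4, 0 ≤ r p q ∧ r p q ≤ 1) (y : Bd κ M → Bool) :
    0 ≤ bodyLaw B κ M r y := by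
  have h1 := bodyLaw_sum B r (fun y' => if y' = y then 1 else 0)
  have h2 : ∑ y', bodyLaw B κ M r y' * (if y' = y then 1 else 0) = bodyLaw B κ M r y := by
    simp_rw [mul_ite, mul_one, mul_zero]
    rw [sum_ite_eq']
    simp
  have h3 := law B r (fun i : Hd κ M => κ.getD (i.1.1 % cls κ) false)
    ((List.finRange (size κ M)).map (wire κ M)) (target_notMem κ M)
    (fun y' => if y' = y then 1 else 0)
  rw [← h2, h1]
  refine le_of_le_of_eq ?_ h3.symm
  obtain ⟨hq0, hq1⟩ := qq_mem hr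
  have hd : ∀ j : Bd κ M, |dl r j| ≤ 1 := fun j =>
    abs_le.2 ⟨by linarith [(dl_mem hr j).1], (dl_mem hr j).2⟩
  refine mext_nonneg (mu_mem hr _) ?_
  intro hh
  refine add_nonneg (mul_nonneg (by linarith) (mext_nonneg hd ?_))
    (mul_nonneg (by linarith) (mext_nonneg hd ?_))
  · intro c
    refine sum_nonneg ?_
    intro k _
    refine mul_nonneg (sq_nonneg _) ?_
    split_ifs <;> norm_num
  · intro c
    split_ifs <;> norm_num

theorem bodyLaw_total (B : List Bool → Bool) (r : ℕ → Qb κ M → ℝ) :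
    ∑ y, bodyLaw B κ M r y = 1 := by
  have h1 := bodyLaw_sum B r (fun _ => 1)
  simp_rw [mul_one] at h1
  rw [h1]
  have h2 := law B r (fun i : Hd κ M => κ.getD (i.1.1 % cls κ) false)
    ((List.finRange (size κ M)).map (wire κ M)) (target_notMem κ M) (fun _ => 1)
  simp_rw [mul_one, sum_fh_sq, mext_const, mul_one] at h2
  exact h2.trans (by ring)

/-- the vote as a function of the body outcome -/
private noncomputable def vote' (B : List Bool → Bool) (κ : List Bool) (M : ℕ) (y : Bd κ M → Bool) : ℝ :=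
  (vote B κ M (Sum.elim (fun _ => false) (Sum.elim y fun _ => false)) : ℝ)

private theorem vote_eq (B : List Bool → Bool) (z : Qb κ M → Bool) :
    (vote B κ M z : ℝ) = vote' B κ M (body z) := by
  rfl

private theorem abs_vote' (B : List Bool → Bool) (y : Bd κ M → Bool) : |vote' B κ M y| ≤ 1 := by
  unfold vote' vote
  split_ifs
  · unfold spin
    split_ifs <;> simp
  · simp

theorem accept (B : List Bool → Bool) (κ : List Bool) (M : ℕ) {K : ℕ}
    (r : Fin K → ℕ → Qb κ M → ℝ) (hr : ∀ j q, ∀ p < 4, 0 ≤ r j p q ∧ r j p q ≤ 1) (a : Bool)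
    (hm : ∀ j, 1 / 6 ≤ (if a = true then 1 else -1) *
      ∑ z, outProb B (r j) (steps κ M) z * (vote B κ M z : ℝ)) :
    errProb B κ M r a ≤ (143 / 144) ^ K := by
  classical
  have h1 : errProb B κ M r a = pm (fun j y => bodyLaw B κ M (r j) y)
      (fun y => if decide (0 < ∑ j, vote' B κ M (y j)) = a then 0 else 1) := by
    have h2 := pm_push (fun (j : Fin K) z => outProb B (r j) (steps κ M) z)
      (body : (Qb κ M → Bool) → Bd κ M → Bool)
      (fun y => if decide (0 < ∑ j, vote' B κ M (y j)) = a then 0 else 1)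
    unfold bodyLaw
    rw [← h2]
    unfold errProb pm
    refine sum_congr rfl ?_
    intro z _
    congr 1
    have h3 : (0 < ∑ j, vote B κ M (z j)) ↔ (0 < ∑ j, vote' B κ M (body (z j))) := by
      simp_rw [← vote_eq]
      rw [← Int.cast_sum, Int.cast_pos]
    simp only [h3]
  rw [h1]
  have hcard : ((1 : ℝ) - (1 / 6) ^ 2 / 4) ^ Fintype.card (Fin K) = (143 / 144) ^ K := by
    rw [Fintype.card_fin]
    norm_num
  have hlaw : ∀ j, ∑ z, outProb B (r j) (steps κ M) z * (vote B κ M z : ℝ) =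
      ∑ y, bodyLaw B κ M (r j) y * vote' B κ M y := by
    intro j
    rw [bodyLaw_sum]
    rfl
  cases a
  · have h4 := hoeff (ι := Fin K) (θ := fun j y => bodyLaw B κ M (r j) y)
      (V := fun _ y => - vote' B κ M y) (δ := 1 / 6)
      (fun j y => bodyLaw_nonneg B (hr j) y) (fun j => bodyLaw_total B (r j))
      (fun j y => by
        rw [abs_neg]
        exact abs_vote' B y) (by norm_num) (by norm_num) (by
      intro j
      have h5 := hm j
      rw [if_neg (by simp), hlaw] at h5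
      refine h5.trans (le_of_eq ?_)
      rw [neg_one_mul, ← sum_neg_distrib]
      refine sum_congr rfl ?_
      intro y _
      ring)
    rw [hcard] at h4
    refine le_trans ?_ h4
    refine Pool.Agent.Helper67.EQP.pm_mono _ (fun j y => bodyLaw_nonneg B (hr j) y) ?_
    intro y
    by_cases h6 : 0 < ∑ j, vote' B κ M (y j)
    · rw [decide_eq_true h6, if_neg (by simp), if_neg (by
        rw [sum_neg_distrib]
        linarith)]
    · rw [decide_eq_false h6, if_pos rfl]
      split_ifs <;> norm_num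
  · have h4 := hoeff (ι := Fin K) (θ := fun j y => bodyLaw B κ M (r j) y)
      (V := fun _ y => vote' B κ M y) (δ := 1 / 6)
      (fun j y => bodyLaw_nonneg B (hr j) y) (fun j => bodyLaw_total B (r j))
      (fun j y => abs_vote' B y) (by norm_num) (by norm_num) (by
      intro j
      have h5 := hm j
      rw [if_pos rfl, hlaw, one_mul] at h5
      exact h5)
    rw [hcard] at h4
    refine le_trans (le_of_eq ?_) h4
    congr 1
    funext y
    by_cases h6 : 0 < ∑ j, vote' B κ M (y j)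
    · rw [decide_eq_true h6, if_pos rfl, if_pos h6]
    · rw [decide_eq_false h6, if_neg (by simp), if_neg h6]

end device

end Pool.Agent.Helper74.NQ
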