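import Pool.Agent.Helper74.NQ.CorrDefs
import Pool.Agent.Helper13.NQ.Corr

/-!
# NQ: noise and the last step
-/

set_option autoImplicit false

namespace Pool.Agent.Helper74.NQ

open Function
open Pool.Agent.Helper67.EQP (sg mext)
open Pool.Agent.Helper65.NQ (chi fh)

variable {Hd J : Type} [Fintype Hd] [DecidableEq Hd] [Fintype J] [DecidableEq J]

/-- extension of `u` by zero -/
private def ext0 (u : J → Bool) : Hd ⊕ (J ⊕ Unit) → Bool :=
  Sum.elim (fun _ => false) (Sum.elim u (fun _ => false))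

omit [Fintype Hd] [DecidableEq Hd] [Fintype J] [DecidableEq J] in
private theorem shift_eq (u : J → Bool) (z : Hd ⊕ (J ⊕ Unit) → Bool) :
    shift u z = Pool.Agent.Helper13.NQ.bx z (ext0 u) := by
  funext w
  rcases w with i | j | t
  · simp [shift, Pool.Agent.Helper13.NQ.bx, ext0]
  · simp [shift, Pool.Agent.Helper13.NQ.bx, ext0]
  · simp [shift, Pool.Agent.Helper13.NQ.bx, ext0]

omit [DecidableEq Hd] [DecidableEq J] in
private theorem chi_ext0 (u : J → Bool) (z : Hd ⊕ (J ⊕ Unit) → Bool) :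
    chi (ext0 u) z = chi u (body z) := by
  unfold chi ext0 body
  rw [Fintype.prod_sum_type, Fintype.prod_sum_type]
  simp

private theorem corrB_eq (ρ : DM (Hd ⊕ (J ⊕ Unit))) (u : J → Bool) :
    corrB ρ u = Pool.Agent.Helper13.NQ.corr ρ (ext0 u) := by
  unfold corrB Pool.Agent.Helper13.NQ.corr
  simp_rw [shift_eq]

private theorem dgB_eq (ρ : DM (Hd ⊕ (J ⊕ Unit))) (u : J → Bool) :
    dgB ρ u = Pool.Agent.Helper13.NQ.dg ρ (ext0 u) := by
  unfold dgB Pool.Agent.Helper13.NQ.dg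
  simp_rw [chi_ext0]

private theorem fac_eq (lam : Hd ⊕ (J ⊕ Unit) → ℝ) (u : J → Bool) :
    Pool.Agent.Helper13.NQ.fac (fun w => 1 - lam w) (ext0 u) =
      ∏ j, if u j = true then 1 - lam (Sum.inr (Sum.inl j)) else 1 := by
  unfold Pool.Agent.Helper13.NQ.fac ext0
  rw [Fintype.prod_sum_type, Fintype.prod_sum_type]
  simp

theorem corrB_depolAll (lam : Hd ⊕ (J ⊕ Unit) → ℝ) (ρ : DM (Hd ⊕ (J ⊕ Unit))) (u : J → Bool) :
    corrB (depolAll lam ρ) u =
      ((∏ j, if u j = true then 1 - lam (Sum.inr (Sum.inl j)) else 1 : ℝ) : ℂ) * corrB ρ u := by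
  rw [corrB_eq, corrB_eq, Pool.Agent.Helper13.NQ.corr_depolAll, fac_eq]

theorem dgB_depolAll (lam : Hd ⊕ (J ⊕ Unit) → ℝ) (ρ : DM (Hd ⊕ (J ⊕ Unit))) (u : J → Bool) :
    dgB (depolAll lam ρ) u =
      ((∏ j, if u j = true then 1 - lam (Sum.inr (Sum.inl j)) else 1 : ℝ) : ℂ) * dgB ρ u := by
  rw [dgB_eq, dgB_eq, Pool.Agent.Helper13.NQ.dg_depolAll, fac_eq]

theorem dgB_gates3 (A : List Bool → Bool) (ρ : DM (Hd ⊕ (J ⊕ Unit))) (u : J → Bool) :
    dgB ((Step.gates g3).app A ρ) u = corrB ρ u := by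
  rw [dgB_eq, corrB_eq]
  apply Pool.Agent.Helper13.NQ.dg_gates
  rintro (i | j | t)
  · exact Or.inr ⟨rfl, rfl⟩
  · exact Or.inl rfl
  · exact Or.inr ⟨rfl, rfl⟩

end Pool.Agent.Helper74.NQ
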