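import Pool.Agent.Helper74.NQ.Accept
import Pool.Agent.Helper80.NQ.Iface
import Pool.Agent.Helper65.NQ.Flag

/-!
# NQ: the vote as a function of the decoded body outcome; the oracle for a good header
-/

set_option autoImplicit false
set_option linter.unusedSectionVars false

namespace Pool.Agent.Helper74.NQ

open Function Finset
open Pool.Agent.Helper80.NQ
open Pool.Agent.Helper65.NQ (dec fh sum_fh_sq rep quad beam flag gval abs_gval_le sum_gval dec_rep
  dec_error sum_fh_par sg_spin)
open Pool.Agent.Helper67.EQP (pm sg mext mext_const mext_mono mext_sub mext_add mext_mul_left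
  mext_weight_nonneg spin Idx had pm_abs_le abs_sg Yes No)
open Pool.Agent.Helper67.EQP

section general

variable {ι : Type} [Fintype ι] [DecidableEq ι]

theorem mext_close {y : ι → ℝ} (hy : ∀ i, |y i| ≤ 1) (f bad : (ι → Bool) → ℝ) (s B : ℝ)
    (h : ∀ z, |f z - s| ≤ B + 2 * bad z) : |mext y f - s| ≤ B + 2 * mext y bad := by
  have h1 : mext y f - s = mext y (fun z => f z - s) := by
    rw [mext_sub, mext_const]
  rw [h1]
  have h2 : |mext y (fun z => f z - s)| ≤ mext y (fun z => |f z - s|) :=
    pm_abs_le _ (fun i b => mext_weight_nonneg (hy i) b) _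
  refine h2.trans ((mext_mono hy h).trans (le_of_eq ?_))
  rw [mext_add, mext_const, mext_mul_left]

theorem mext_xor (h : ι → Bool) (y : ι → ℝ) (F : (ι → Bool) → ℝ) :
    mext (fun i => sg (h i) * y i) F = mext y (fun c => F (fun i => xor (h i) (c i))) := by
  rw [mext_def, mext_def]
  let e : (ι → Bool) ≃ (ι → Bool) := Function.Involutive.toPerm (fun c i => xor (h i) (c i))
    (fun c => by
      funext i
      show xor (h i) (xor (h i) (c i)) = c i
      cases h i <;> cases c i <;> rfl)
  rw [← e.sum_comp]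
  refine sum_congr rfl ?_
  intro c _
  congr 1
  refine prod_congr rfl ?_
  intro i _
  have h1 : e c i = xor (h i) (c i) := rfl
  rw [h1]
  cases h i <;> cases c i <;> simp

end general

section mean

variable {κ : List Bool} {M : ℕ}

/-- the list of the qubits which are read -/
abbrev wl (κ : List Bool) (M : ℕ) : List (Qb κ M) := (List.finRange (size κ M)).map (wire κ M)

theorem vote_gval {A : List Bool → Bool} {X : Idx (par κ) → Bool} (hS : Stores A κ X)
    (z : Qb κ M → Bool) :
    (vote A κ M z : ℝ) = gval (m := par κ) (fun k => X (Sum.inl (Sum.inr k)))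
      (dec (clB κ M) (body z)) := by
  have h1 : maj z (2 * par κ + 5) = dec (clB κ M) (body z) (Fin.last (2 * par κ + 5)) :=
    maj_eq z (Fin.last (2 * par κ + 5))
  have h2 : maj z (2 * par κ + 4) = dec (clB κ M) (body z) (Fin.castSucc (Fin.last (2 * par κ + 4))) :=
    maj_eq z (Fin.castSucc (Fin.last (2 * par κ + 4)))
  have h3 : (fun j : Fin (2 * par κ + 4) => maj z j.1) =
      Fin.init (n := 2 * par κ + 4) (Fin.init (n := 2 * par κ + 5) (dec (clB κ M) (body z))) := by
    funext j
    exact maj_eq z (Fin.castSucc (Fin.castSucc j))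
  unfold vote gval
  rw [h1]
  split_ifs with h
  · rw [sg_spin, h2, hS.2, h3]
    rfl
  · simp

theorem ff_good {A : List Bool → Bool} {X : Idx (par κ) → Bool} (hS : Stores A κ X)
    (hsz : 13 * κ.length + 20 ≤ size κ M) {hh : Hd κ M → Bool}
    (hg : dec (clH κ M) hh = κ.get) :
    ff A (wl κ M) hh = fun x => flag (d := 2 * par κ + 5) (beam (fun i => X (Sum.inl (Sum.inl i)))
      (quad (m := par κ))) (Pool.Agent.Helper65.NQ.par (clB κ M) x) := by
  funext x
  rw [ff_wire, hS.1 M (comb hh x) hsz (fun j => by rw [dec_comb, hg])]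
  have h1 : ∀ j : Fin (2 * par κ + 6), pr (comb hh x) j.1 =
      Pool.Agent.Helper65.NQ.par (clB κ M) x j := fun j => par_comb hh x j
  have h2 : pr (comb hh x) (2 * par κ + 5) =
      Pool.Agent.Helper65.NQ.par (clB κ M) x (Fin.last (2 * par κ + 5)) :=
    h1 (Fin.last (2 * par κ + 5))
  have h3 : pr (comb hh x) (2 * par κ + 4) =
      Pool.Agent.Helper65.NQ.par (clB κ M) x (Fin.castSucc (Fin.last (2 * par κ + 4))) :=
    h1 (Fin.castSucc (Fin.last (2 * par κ + 4)))
  have h4 : (fun j : Fin (2 * par κ + 4) => pr (comb hh x) j.1) =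
      Fin.init (n := 2 * par κ + 4) (Fin.init (n := 2 * par κ + 5)
        (Pool.Agent.Helper65.NQ.par (clB κ M) x)) := by
    funext j
    exact h1 (Fin.castSucc (Fin.castSucc j))
  rw [h2, h3, h4]
  rfl

end mean

end Pool.Agent.Helper74.NQ
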