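import Pool.Agent.Helper74.NQ.Accept
import Pool.Agent.Helper65.NQ.Mean
import Pool.Agent.Helper13.NQ.Num

/-!
# NQ: the noisy devices output the bit which is stored
-/

set_option autoImplicit false

namespace Pool.Agent.Helper74.NQ

open Pool.Agent.Helper80.NQ
open Pool.Agent.Helper13.NQ
open Pool.Agent.Helper67.EQP (Idx Yes No)

theorem noisyOutput_of {A : List Bool → Bool} {κ : List Bool}
    {X : Idx (Pool.Agent.Helper67.EQP.par κ) → Bool} (hS : Stores A κ X) :
    (Yes (Pool.Agent.Helper67.EQP.par κ) X → NoisyOutput A κ true) ∧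
      (No (Pool.Agent.Helper67.EQP.par κ) X → NoisyOutput A κ false) := by
  have key : ∀ (M K : ℕ) (r : Fin K → ℕ → Qb κ M → ℝ),
      (∀ j q, ∀ p < 4, 0 ≤ r j p q ∧ r j p q ≤ 1 ∧
        16 * ((κ.length : ℝ) + 1) ≤ (1 - r j p q) ^ 8 * M) → ∀ j,
      (Yes (Pool.Agent.Helper67.EQP.par κ) X →
        1 / 6 ≤ ∑ z, outProb A (r j) (steps κ M) z * (vote A κ M z : ℝ)) ∧
      (No (Pool.Agent.Helper67.EQP.par κ) X →
        ∑ z, outProb A (r j) (steps κ M) z * (vote A κ M z : ℝ) ≤ -(1 / 6)) := by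
    intro M K r hr j
    have hR : Rates κ M (r j) := fun q p hp => hr j q p hp
    have hM := hR.M_ge
    refine Pool.Agent.Helper65.NQ.mean_vote hS (size_ge hM)
      (fun q p hp => ⟨(hr j q p hp).1, (hr j q p hp).2.1⟩) (th0_nonneg κ M) (th0_le_one hM) ?_
      (l := 2 * M) (fun i hi => (two_M_le hM).trans (card_res hi)) (num_bound hM)
    intro q
    obtain ⟨a1, a2, a3⟩ := hR q 0 (by norm_num)
    obtain ⟨b1, b2, b3⟩ := hR q 1 (by norm_num)
    obtain ⟨c1, c2, c3⟩ := hR q 2 (by norm_num)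
    obtain ⟨d1, d2, d3⟩ := hR q 3 (by norm_num)
    exact th0_le4 (x_nonneg κ M) (by linarith) (by linarith) (by linarith) (by linarith)
      (x_le hM a3) (x_le hM b3) (x_le hM c3) (x_le hM d3)
  constructor
  · intro hY M K r hr
    refine accept A κ M r (fun j q p hp => ⟨(hr j q p hp).1, (hr j q p hp).2.1⟩) true ?_
    intro j
    rw [if_pos rfl, one_mul]
    exact (key M K r hr j).1 hY
  · intro hN M K r hr
    refine accept A κ M r (fun j q p hp => ⟨(hr j q p hp).1, (hr j q p hp).2.1⟩) false ?_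
    intro j
    rw [if_neg (by simp)]
    have := (key M K r hr j).2 hN
    linarith

end Pool.Agent.Helper74.NQ
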